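import Pool.Agent.Lib.MP_28303a_al.NT.A.Iface

/-! # `ev` is fully faithful and has projective values -/

set_option autoImplicit false
set_option linter.unusedSectionVars false
set_option linter.unusedVariables false

namespace Pool.Agent.NegK.NT.H85

universe u

open CategoryTheory Limits

section

variable {k : Type u} [Ring k] {Γ : Type u} [Group Γ] {B : Type u} [MulAction Γ B] {P : Pre Γ B}

/-- The basis elements of `ev A` generate. -/
theorem evS_induction (A : Loc k P) (U : B) {p : A.F → Prop} (h0 : p 0)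
    (hadd : ∀ x y, x ∈ A.evS U → y ∈ A.evS U → p x → p y → p (x + y))
    (hs : ∀ (i : A.ι) (g : Γ) (c : k), P.le U (g • A.loc i) →
      p (Finsupp.single i (MonoidAlgebra.single g c))) :
    ∀ x ∈ A.evS U, p x := by
  classical
  have hm : ∀ (i : A.ι) (g : Γ) (c : k), P.le U (g • A.loc i) →
      (Finsupp.single i (MonoidAlgebra.single g c)) ∈ A.evS U := by
    intro i g c h j l hl
    rw [Finsupp.single_apply] at hl
    split_ifs at hl with h1
    · subst h1
      rw [MonoidAlgebra.coeff_single, Finsupp.single_apply] at hl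
      split_ifs at hl with h2
      · rw [← h2]
        exact h
      · exact absurd rfl hl
    · exact absurd rfl hl
  intro x hx
  have key : (fun y => y ∈ A.evS U ∧ p y) x := by
    have h1 : x = ∑ i ∈ x.support, ∑ g ∈ (x i).coeff.support,
        Finsupp.single i (MonoidAlgebra.single g ((x i).coeff g)) := by
      conv_lhs => rw [← Finsupp.sum_single x]
      rw [Finsupp.sum]
      refine Finset.sum_congr rfl fun i _ => ?_
      rw [← Finsupp.single_finsetSum]
      congr 1
      ext g
      rw [MonoidAlgebra.coeff_sum, Finset.sum_apply']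
      simp only [MonoidAlgebra.coeff_single, Finsupp.single_apply]
      rw [Finset.sum_ite_eq']
      split_ifs with h
      · rfl
      · exact Finsupp.notMem_support_iff.1 h
    rw [h1]
    refine Finset.sum_induction _ (fun y => y ∈ A.evS U ∧ p y)
      (fun a b ha hb => ⟨Submodule.add_mem _ ha.1 hb.1, hadd a b ha.1 hb.1 ha.2 hb.2⟩)
      ⟨Submodule.zero_mem _, h0⟩ fun i _ => ?_
    refine Finset.sum_induction _ (fun y => y ∈ A.evS U ∧ p y)
      (fun a b ha hb => ⟨Submodule.add_mem _ ha.1 hb.1, hadd a b ha.1 hb.1 ha.2 hb.2⟩)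
      ⟨Submodule.zero_mem _, h0⟩ fun g hg => ?_
    have h2 := hx i g (Finsupp.mem_support_iff.1 hg)
    exact ⟨hm i g _ h2, hs i g _ h2⟩
  exact key.2

/-- A basis element in its own box. -/
noncomputable def bas (A : Loc k P) (i : A.ι) :
    (Loc.ev.obj A).obj (Opposite.op (Bx.of (A.loc i))) :=
  (⟨Finsupp.single i 1, A.single_mem i⟩ : A.evS (A.loc i))

theorem bas_val (A : Loc k P) (i : A.ι) :
    (bas A i : A.evS (A.loc i)).1 = Finsupp.single i 1 := rfl

theorem single_eq (A : Loc k P) {U : Bx P} (i : A.ι) (g : Γ) (c : k)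
    (h : P.le U.pt (g • A.loc i)) :
    (((c • ((Loc.ev.obj A).map (Bx.mk' (V := Bx.of (A.loc i)) g h).op).hom (bas A i) :
      (Loc.ev.obj A).obj (Opposite.op U)) : A.evS U.pt)).1 =
        Finsupp.single i (MonoidAlgebra.single g c) := by
  change c • (MonoidAlgebra.single g (1 : k)) • (Finsupp.single i (1 : MonoidAlgebra k Γ)) = _
  rw [Finsupp.smul_single, smul_eq_mul, mul_one, Finsupp.smul_single]
  congr 1
  ext l
  rw [MonoidAlgebra.coeff_smul, Finsupp.smul_apply, MonoidAlgebra.coeff_single,
    MonoidAlgebra.coeff_single]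
  classical
  rw [Finsupp.single_apply, Finsupp.single_apply]
  split_ifs with h1
  · rw [smul_eq_mul, mul_one]
  · rw [smul_zero]

/-- An element of a value of `ev A`. -/
noncomputable def mkE (A : Loc k P) (U : Bx P) (x : A.F) (hx : x ∈ A.evS U.pt) :
    (Loc.ev.obj A).obj (Opposite.op U) :=
  (⟨x, hx⟩ : A.evS U.pt)

theorem mkE_zero (A : Loc k P) (U : Bx P) (h : (0 : A.F) ∈ A.evS U.pt) : mkE A U 0 h = 0 := rfl

theorem mkE_add (A : Loc k P) (U : Bx P) (x y : A.F) (hx : x ∈ A.evS U.pt) (hy : y ∈ A.evS U.pt)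
    (h : x + y ∈ A.evS U.pt) : mkE A U (x + y) h = mkE A U x hx + mkE A U y hy := rfl

/-- Maps from `ev A` are determined by the images of the basis elements. -/
theorem ev_hom_ext (A : Loc k P) {M : Fn k P} {η η' : Loc.ev.obj A ⟶ M}
    (h : ∀ i, (η.app (Opposite.op (Bx.of (A.loc i)))).hom (bas A i) =
      (η'.app (Opposite.op (Bx.of (A.loc i)))).hom (bas A i)) : η = η' := by
  ext V x
  obtain ⟨U⟩ := V
  obtain ⟨x, hx⟩ := x
  have key := evS_induction A U.pt (p := fun x => ∀ hx : x ∈ A.evS U.pt,
    (η.app (Opposite.op U)).hom (mkE A U x hx) =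
      (η'.app (Opposite.op U)).hom (mkE A U x hx)) ?_ ?_ ?_ x hx hx
  · exact key
  · intro h0
    rw [mkE_zero, map_zero, map_zero]
  · intro x y hx hy h1 h2 hxy
    rw [mkE_add A U x y hx hy hxy, map_add, map_add, h1, h2]
  · intro i g c hle hmem
    have e : mkE A U (Finsupp.single i (MonoidAlgebra.single g c)) hmem =
        c • ((Loc.ev.obj A).map (Bx.mk' (V := Bx.of (A.loc i)) g hle).op).hom (bas A i) :=
      Subtype.ext (single_eq A i g c hle).symm
    rw [e, map_smul, map_smul]
    congr 1
    have n1 := congrArg (fun f => f.hom (bas A i))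
      (η.naturality (Bx.mk' (V := Bx.of (A.loc i)) g hle).op)
    have n2 := congrArg (fun f => f.hom (bas A i))
      (η'.naturality (Bx.mk' (V := Bx.of (A.loc i)) g hle).op)
    simp only [ModuleCat.hom_comp, LinearMap.comp_apply] at n1 n2
    rw [n1, n2, h i]

open Classical in
/-- The image of the basis element `g i`. -/
noncomputable def phi (A : Loc k P) {M : Fn k P}
    (m : ∀ i : A.ι, M.obj (Opposite.op (Bx.of (A.loc i)))) (U : Bx P) (i : A.ι) (g : Γ) :
    M.obj (Opposite.op U) :=
  if h : P.le U.pt (g • A.loc i) then (M.map (Bx.mk' (V := Bx.of (A.loc i)) g h).op).hom (m i)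
  else 0

theorem phi_eq (A : Loc k P) {M : Fn k P}
    (m : ∀ i : A.ι, M.obj (Opposite.op (Bx.of (A.loc i)))) (U : Bx P) (i : A.ι) (g : Γ)
    (h : P.le U.pt (g • A.loc i)) :
    phi A m U i g = (M.map (Bx.mk' (V := Bx.of (A.loc i)) g h).op).hom (m i) := dif_pos h

/-- The linear extension. -/
noncomputable def ext (A : Loc k P) {M : Fn k P}
    (m : ∀ i : A.ι, M.obj (Opposite.op (Bx.of (A.loc i)))) (U : Bx P) :
    A.F →ₗ[k] M.obj (Opposite.op U) where
  toFun x := x.sum fun i b => b.coeff.sum fun g c => c • phi A m U i g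
  map_add' x y := by
    classical
    refine Finsupp.sum_add_index' (fun i => ?_) (fun i b b' => ?_)
    · rw [MonoidAlgebra.coeff_zero, Finsupp.sum_zero_index]
    · rw [MonoidAlgebra.coeff_add]
      exact Finsupp.sum_add_index' (fun g => zero_smul _ _) (fun g c c' => add_smul _ _ _)
  map_smul' r x := by
    classical
    rw [RingHom.id_apply, Finsupp.sum_smul_index' (fun i => by
      rw [MonoidAlgebra.coeff_zero, Finsupp.sum_zero_index]), Finsupp.smul_sum]
    refine Finsupp.sum_congr fun i _ => ?_
    have h1 : ((r • (x i).coeff).sum fun g c => c • phi A m U i g) =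
        (x i).coeff.sum fun g c => (r • c) • phi A m U i g :=
      Finsupp.sum_smul_index' (fun g => zero_smul k (phi A m U i g))
    rw [MonoidAlgebra.coeff_smul, h1, Finsupp.smul_sum]
    refine Finsupp.sum_congr fun g _ => ?_
    rw [smul_eq_mul, mul_smul]

theorem ext_single (A : Loc k P) {M : Fn k P}
    (m : ∀ i : A.ι, M.obj (Opposite.op (Bx.of (A.loc i)))) (U : Bx P) (i : A.ι) (g : Γ) (c : k) :
    ext A m U (Finsupp.single i (MonoidAlgebra.single g c)) = c • phi A m U i g := by
  change (Finsupp.single i (MonoidAlgebra.single g c)).sum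
    (fun i b => b.coeff.sum fun g c => c • phi A m U i g) = _
  have h1 : ((Finsupp.single g c : Γ →₀ k).sum fun g c => c • phi A m U i g) = c • phi A m U i g :=
    Finsupp.sum_single_index (zero_smul k (phi A m U i g))
  rw [Finsupp.sum_single_index, MonoidAlgebra.coeff_single, h1]
  rw [MonoidAlgebra.coeff_zero, Finsupp.sum_zero_index]

/-- The map with given images of the basis elements. -/
noncomputable def lift (A : Loc k P) {M : Fn k P}
    (m : ∀ i : A.ι, M.obj (Opposite.op (Bx.of (A.loc i)))) : Loc.ev.obj A ⟶ M where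
  app V := ModuleCat.ofHom ((ext A m V.unop).comp (A.evS V.unop.pt).subtype)
  naturality V W f := by
    ext x
    obtain ⟨U⟩ := V
    obtain ⟨x, hx⟩ := x
    have key := evS_induction A U.pt (p := fun x =>
      ext A m W.unop ((MonoidAlgebra.single (Bx.el f.unop) (1 : k)) • x) =
        (M.map f).hom (ext A m U x)) ?_ ?_ ?_ x hx
    · exact key
    · rw [smul_zero, map_zero, map_zero, map_zero]
    · intro x y _ _ h1 h2
      rw [smul_add, map_add, map_add, map_add, h1, h2]
    · intro i g c hle
      rw [Finsupp.smul_single, smul_eq_mul, MonoidAlgebra.single_mul_single, one_mul, ext_single,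
        ext_single, map_smul]
      congr 1
      have hle' : P.le W.unop.pt ((Bx.el f.unop * g) • A.loc i) := by
        rw [mul_smul]
        exact P.trans (Bx.le_el f.unop) (P.smul _ hle)
      rw [phi_eq A m _ i _ hle', phi_eq A m _ i _ hle]
      have e : (Bx.mk' (V := Bx.of (A.loc i)) (Bx.el f.unop * g) hle').op =
        (Bx.mk' (V := Bx.of (A.loc i)) g hle).op ≫ f := rfl
      rw [e, M.map_comp]
      rfl

theorem lift_bas (A : Loc k P) {M : Fn k P}
    (m : ∀ i : A.ι, M.obj (Opposite.op (Bx.of (A.loc i)))) (i : A.ι) :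
    ((lift A m).app (Opposite.op (Bx.of (A.loc i)))).hom (bas A i) = m i := by
  change ext A m (Bx.of (A.loc i)) (Finsupp.single i (1 : MonoidAlgebra k Γ)) = _
  have hle : P.le (Bx.of (P := P) (A.loc i)).pt ((1 : Γ) • A.loc i) := by
    rw [one_smul]
    exact P.refl _
  rw [MonoidAlgebra.one_def, ext_single, one_smul, phi_eq A m _ i _ hle]
  have e : (Bx.mk' (V := Bx.of (A.loc i)) (1 : Γ) hle).op =
    𝟙 (Opposite.op (Bx.of (P := P) (A.loc i))) := rfl
  rw [e, M.map_id]
  rfl

theorem ev_full : (Loc.ev (k := k) (P := P)).Full where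
  map_surjective {A A'} η := by
    refine ⟨Loc.ofB (fun i => ((η.app (Opposite.op (Bx.of (A.loc i)))).hom (bas A i) :
      A'.evS (A.loc i)).1) (fun i => ((η.app (Opposite.op (Bx.of (A.loc i)))).hom (bas A i) :
      A'.evS (A.loc i)).2), ?_⟩
    refine ev_hom_ext A fun i => Subtype.ext ?_
    exact Loc.lin_ofB _ _ i

theorem ev_faithful : (Loc.ev (k := k) (P := P)).Faithful where
  map_injective {A A'} f f' h := by
    refine Loc.ext_basis fun i => ?_
    have := congrArg (fun η : Loc.ev.obj A ⟶ Loc.ev.obj A' =>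
      (((η.app (Opposite.op (Bx.of (A.loc i)))).hom (bas A i) : A'.evS (A.loc i)).1)) h
    exact this

theorem ev_projective (A : Loc k P) : Projective (Loc.ev.obj A) where
  factors {E X} f e he := by
    have hsurj : ∀ i : A.ι, Function.Surjective
        (e.app (Opposite.op (Bx.of (P := P) (A.loc i)))).hom := fun i =>
      (ModuleCat.epi_iff_surjective _).1 inferInstance
    choose m hm using fun i : A.ι =>
      hsurj i ((f.app (Opposite.op (Bx.of (A.loc i)))).hom (bas A i))
    refine ⟨lift A m, ev_hom_ext A fun i => ?_⟩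
    have : ((lift A m ≫ e).app (Opposite.op (Bx.of (A.loc i)))).hom (bas A i) =
      (e.app (Opposite.op (Bx.of (A.loc i)))).hom
        (((lift A m).app (Opposite.op (Bx.of (A.loc i)))).hom (bas A i)) := rfl
    rw [this, lift_bas, hm]

end

theorem evp : EvpStatement.{u} := fun k _ Γ _ B _ P =>
  ⟨ev_full, ev_faithful, ev_projective⟩

end Pool.Agent.NegK.NT.H85
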